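import Pool.Agent.Y481.DR.Defs
import Pool.Agent.Y195.CB.JLC
import Pool.Agent.Y448.CB.Trg1
import Pool.Agent.Y807.CB.Sigt
import Pool.Agent.W749.BS.Cont

/-!
# Project DR: matrices and operators (JPD); continuity at the root of unity (CND)
-/

set_option autoImplicit false

namespace Pool.Agent.Y884.DR

open Finset Filter Topology Matrix
open Pool.Agent.H550R3.Jones
open Pool.Agent.W711.HT hiding XX
open Pool.Agent.Y472
open Pool.Agent.Y481.DR
open Pool.Agent.TH563.UV (Tb op opv)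
open Pool.Agent.Y195.CB

/-! ### JPD -/

theorem pow_t2 (N : ℕ) (A : V2 →ₗ[ℂ] V2) (hA : ∀ x ∈ T2 N, A x ∈ T2 N) (n : ℕ) :
    ∀ x ∈ T2 N, (A ^ n) x ∈ T2 N := by
  induction n with
  | zero => intro x hx; simpa using hx
  | succ n ih =>
    intro x hx
    rw [pow_succ]
    exact ih _ (hA x hx)

theorem aeval_t2 (N : ℕ) (A : V2 →ₗ[ℂ] V2) (hA : ∀ x ∈ T2 N, A x ∈ T2 N)
    (P : Polynomial ℂ) : ∀ x ∈ T2 N, Polynomial.aeval A P x ∈ T2 N := by
  induction P using Polynomial.induction_on' with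
  | add p q hp hq =>
    intro x hx
    rw [map_add, LinearMap.add_apply]
    exact (T2 N).add_mem (hp x hx) (hq x hx)
  | monomial n a =>
    intro x hx
    rw [Polynomial.aeval_monomial, Module.End.mul_apply, Module.algebraMap_end_apply]
    exact (T2 N).smul_mem _ (pow_t2 N A hA n x hx)

theorem step (N : ℕ) (A B : V2 →ₗ[ℂ] V2) (hA : ∀ x ∈ T2 N, A x ∈ T2 N)
    (hB : ∀ x ∈ T2 N, B x ∈ T2 N) (x : V3) (hx : x ∈ T3 N) :
    (gen (mx N A) 3 0 * gen (mx N B) 3 1).mulVec (rs N x) = rs N ((L12 A * L23 B) x) ∧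
      (L12 A * L23 B) x ∈ T3 N := by
  have h1 := l23_t3 N B hB x hx
  have h2 := l12_t3 N A hA _ h1
  refine ⟨?_, h2⟩
  rw [← Matrix.mulVec_mulVec, gen1 N B x hx, gen0 N A _ h1]
  rfl

theorem opD_opP (N : ℕ) (v w l : ℂ) (hc : ∀ x ∈ T2 N, cas w l x ∈ T2 N)
    (ts : List (Tb × Tb)) (ps : List (Polynomial ℂ × Polynomial ℂ))
    (h : List.Forall₂ (fun t p => op N v t.1 = mx N (Polynomial.aeval (cas w l) p.1) ∧
      op N v t.2 = mx N (Polynomial.aeval (cas w l) p.2)) ts ps) (x : V3) (hx : x ∈ T3 N) :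
    (opD N v ts).mulVec (rs N x) = rs N (opP w l ps x) ∧ opP w l ps x ∈ T3 N := by
  induction h with
  | nil => exact ⟨by simp [opD, opP], by simpa [opP] using hx⟩
  | @cons t p ts ps h1 h2 ih =>
    obtain ⟨ih1, ih2⟩ := ih
    have e1 : opD N v (t :: ts) = (gen (op N v t.1) 3 0 * gen (op N v t.2) 3 1) * opD N v ts := by
      unfold opD
      rw [List.map_cons, List.prod_cons]
    have e2 : opP w l (p :: ps) x = (L12 (Polynomial.aeval (cas w l) p.1) *
        L23 (Polynomial.aeval (cas w l) p.2)) (opP w l ps x) := by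
      unfold opP
      rw [List.map_cons, List.prod_cons]
      rfl
    rw [e1, e2, h1.1, h1.2, ← Matrix.mulVec_mulVec, ih1]
    exact step N _ _ (aeval_t2 N _ hc _) (aeval_t2 N _ hc _) _ ih2

/-- JPD -/
theorem jpd : S_JPD := by
  intro N ts ps m hN2 hts
  have hN : 0 < N := by omega
  have hR := rtv N hN2
  obtain ⟨hs, hn, -, -, hc, -⟩ := Pool.Agent.Y807.CB.sigt N (vN N) (-1) hR (by norm_num)
  rw [JD, dif_pos hN]
  have hm : ∀ g ∈ ftw m, g.1 < 2 := fun g hg =>
    Pool.Agent.Y448.CB.letters_lt m [] g (List.mem_append_left _ hg)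
  have key : ∀ q s : Fin N, (rep (crossP N (vN N)) (crossN N (vN N)) 3 (ftw m) *
      opD N (vN N) ts) (Fin.cons (⟨0, hN⟩ : Fin N) ![q, s])
        (Fin.cons (⟨0, hN⟩ : Fin N) ![q, s]) =
      (fullt (vN N) (-1) m * opP (vN N) (-1) ps) (io (dl q s)) 0 q s := by
    intro q s
    obtain ⟨h1, h2⟩ := opD_opP N (vN N) (vN N) (-1) hc ts ps hts _ (io_t3 N hN q s)
    have h3 := (rep_opw N (vN N) (-1) hs hn (ftw m) hm _ h2).1
    rw [mx_sg N _ hR, mx_sn N _ hR, ← h1, Matrix.mulVec_mulVec, rs_io N hN q s,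
      Matrix.mulVec_single_one, Pool.Agent.Y448.CB.opw_ftw] at h3
    exact congrFun h3 (Fin.cons (⟨0, hN⟩ : Fin N) ![q, s])
  show ∑ s : Fin 2 → Fin N, (∏ x, vN N ^ ((N : ℤ) - 1 - 2 * ((s x : ℕ) : ℤ))) *
    (rep (crossP N (vN N)) (crossN N (vN N)) 3 (ftw m) * opD N (vN N) ts)
      (Fin.cons ⟨0, hN⟩ s) (Fin.cons ⟨0, hN⟩ s) = _
  unfold JP
  rw [← Fin.sum_univ_eq_sum_range (fun q => ∑ s ∈ range N, KK (vN N) (-1) q * KK (vN N) (-1) s *
    (fullt (vN N) (-1) m * opP (vN N) (-1) ps) (io (dl q s)) 0 q s) N]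
  simp_rw [← Fin.sum_univ_eq_sum_range (fun s => KK (vN N) (-1) _ * KK (vN N) (-1) s *
    (fullt (vN N) (-1) m * opP (vN N) (-1) ps) (io (dl _ s)) 0 _ s) N]
  rw [← Fintype.sum_prod_type']
  refine Fintype.sum_equiv (finTwoArrowEquiv (Fin N)) _ _ fun s => ?_
  rw [Fin.prod_univ_two]
  have e : s = ![s 0, s 1] := by
    funext i
    fin_cases i <;> rfl
  have k := key (s 0) (s 1)
  rw [← e] at k
  rw [k, ← KK_neg N _ hR, ← KK_neg N _ hR]
  rfl

/-! ### CND -/

section Cont

open Pool.Agent.W749.BS (mul_cont rot_cont br_v0_ne belt_cont)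
open Pool.Agent.H756R3.J (zpow_cont crossP_cont crossN_cont)
open Pool.Agent.W719.BS (rot kw belt)

/-- entrywise continuity of a power -/
theorem pow_cont {ι : Type} [Fintype ι] [DecidableEq ι] {A : ℂ → Matrix ι ι ℂ} {v : ℂ}
    (hA : ∀ p q, ContinuousAt (fun v => A v p q) v) (n : ℕ) :
    ∀ p q : ι, ContinuousAt (fun v => (A v ^ n) p q) v := by
  induction n with
  | zero =>
    intro p q
    simp only [pow_zero]
    exact continuousAt_const
  | succ n ih =>
    intro p q
    simp only [pow_succ]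
    exact mul_cont ih hA p q

/-- entrywise continuity of the operator of a tree -/
theorem op_cont {N : ℕ} {v : ℂ} (hv : v ≠ 0) (hN : ∀ k : ℕ, 0 < k → k < N → br v k ≠ 0)
    (t : Tb) : ∀ p q : Fin N × Fin N, ContinuousAt (fun v => op N v t p q) v := by
  induction t with
  | vx b a =>
    have h1 : ∀ p q : Fin N × Fin N, ContinuousAt (fun v : ℂ => (if 0 ≤ a then
        crossP N v ^ a.toNat else crossN N v ^ (-a).toNat) p q) v := by
      intro p q
      by_cases ha : 0 ≤ a
      · simp only [if_pos ha]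
        exact pow_cont (crossP_cont hv hN) _ p q
      · simp only [if_neg ha]
        exact pow_cont (crossN_cont hv hN) _ p q
    have h2 : ∀ p q : Fin N × Fin N, ContinuousAt (fun v : ℂ => (if b then belt N v else
        (1 : Matrix (Fin N × Fin N) (Fin N × Fin N) ℂ)) p q) v := by
      intro p q
      cases b with
      | true => simp only [if_true]; exact belt_cont hv hN p q
      | false => simp only [Bool.false_eq_true, if_false]; exact continuousAt_const
    intro p q
    simp only [op, opv]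
    exact mul_cont h2 h1 p q
  | br t c iht ihc =>
    intro p q
    simp only [op]
    exact mul_cont iht (rot_cont hv hN ihc) p q

theorem opD_cont {N : ℕ} {v : ℂ} (hv : v ≠ 0) (hN : ∀ k : ℕ, 0 < k → k < N → br v k ≠ 0)
    (ts : List (Tb × Tb)) : ∀ s t : Fin 3 → Fin N, ContinuousAt (fun v => opD N v ts s t) v := by
  induction ts with
  | nil =>
    intro s t
    exact continuousAt_const
  | cons a ts ih =>
    intro s t
    have e : (fun v => opD N v (a :: ts) s t) = fun v =>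
        ((gen (op N v a.1) 3 0 * gen (op N v a.2) 3 1) * opD N v ts) s t := by
      funext v
      unfold opD
      rw [List.map_cons, List.prod_cons]
    rw [e]
    refine mul_cont (mul_cont ?_ ?_) ih s t
    · exact fun p q => cont_gen (fun v => op N v a.1) v (op_cont hv hN a.1) 3 0 p q _
    · exact fun p q => cont_gen (fun v => op N v a.2) v (op_cont hv hN a.2) 3 1 p q _

/-- CND -/
theorem cnd : S_CND := by
  intro ts m N hN1
  have h0 : vN N = Pool.Agent.W719.BS.v0 N := rfl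
  have hv : vN N ≠ 0 := by
    rw [h0]
    exact Pool.Agent.W749.BS.v0_ne N
  have hN : ∀ k : ℕ, 0 < k → k < N → br (vN N) k ≠ 0 := by
    rw [h0]
    exact fun k h1 h2 => br_v0_ne h1 h2
  have hpos : 0 < N := hN1
  have e : JD ts m N = fun v => ∑ s : Fin 2 → Fin N,
      (∏ x, v ^ ((N : ℤ) - 1 - 2 * ((s x : ℕ) : ℤ))) *
      (rep (crossP N v) (crossN N v) 3 (ftw m) * opD N v ts) (Fin.cons ⟨0, hpos⟩ s)
        (Fin.cons ⟨0, hpos⟩ s) := by
    funext v
    rw [JD, dif_pos hpos]
    rfl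
  rw [e]
  refine tendsto_finsetSum _ fun s _ => ?_
  refine ContinuousAt.mul ?_ ?_
  · exact tendsto_finsetProd _ fun x _ => zpow_cont hv _
  · refine mul_cont ?_ (opD_cont hv hN ts) _ _
    exact fun p q => cont_rep (fun v => crossP N v) (fun v => crossN N v) (vN N)
      (crossP_cont hv hN) (crossN_cont hv hN) 3 (ftw m) p q

end Cont

end Pool.Agent.Y884.DR
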